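import Pool.Agent.K1H14.SD.Stm

/-!
# Project SD: the trace on the even Clifford algebra
-/

set_option autoImplicit false

namespace Pool.Agent.K1H59.SD

open Pool.Agent.K1H14.SD

universe u

theorem t_TR : S_TR.{u} := by
  intro A _ _ d M st h
  have hfd : FiniteDimensional ℂ A := by
    have hfin : ({x | ∃ K : Finset (Fin d), Even K.card ∧ x = M K} : Set A).Finite := by
      refine (Set.finite_range M).subset ?_
      rintro _ ⟨K, -, rfl⟩
      exact ⟨K, rfl⟩
    refine Module.finite_def.2 ?_
    have htop : Submodule.span ℂ {x | ∃ K : Finset (Fin d), Even K.card ∧ x = M K} = ⊤ :=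
      Submodule.eq_top_iff'.2 h.span
    rw [← htop]
    exact Submodule.fg_span hfin
  refine ⟨hfd, ?_⟩
  have hnt : Nontrivial A := ⟨⟨1, 0, h.ne⟩⟩
  let T : A →ₗ[ℂ] ℂ := (LinearMap.trace ℂ A).comp (LinearMap.mul ℂ A)
  have hT : ∀ x, T x = LinearMap.trace ℂ A (LinearMap.mulLeft ℂ x) := fun x => rfl
  have hcyc : ∀ x y, T (x * y) = T (y * x) := by
    intro x y
    rw [hT, hT, LinearMap.mulLeft_mul, LinearMap.mulLeft_mul]
    exact LinearMap.trace_mul_comm ℂ _ _
  have h1 : T 1 = Module.finrank ℂ A := by
    rw [hT, LinearMap.mulLeft_one]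
    exact LinearMap.trace_id ℂ A
  have hfr : (Module.finrank ℂ A : ℂ) ≠ 0 := by
    exact_mod_cast (Module.finrank_pos (R := ℂ) (M := A)).ne'
  refine ⟨(Module.finrank ℂ A : ℂ)⁻¹ • T, ?_, ?_⟩
  · intro K hK
    by_cases hKe : K = ∅
    · subst hKe
      rw [if_pos rfl, h.one, LinearMap.smul_apply, h1, smul_eq_mul, inv_mul_cancel₀ hfr]
    · rw [if_neg hKe]
      obtain ⟨i, hi⟩ := Finset.nonempty_iff_ne_empty.2 hKe
      have hnu : ∃ j, j ∉ K := by
        by_contra hcon
        push Not at hcon
        have : K = Finset.univ := Finset.eq_univ_iff_forall.2 hcon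
        rw [this, Finset.card_univ, Fintype.card_fin] at hK
        exact (Nat.not_even_iff_odd.2 h.odd) hK
      obtain ⟨j, hj⟩ := hnu
      have hij : i ≠ j := fun e => hj (e ▸ hi)
      have hLc : ({i, j} : Finset (Fin d)).card = 2 := Finset.card_pair hij
      have hLe : Even ({i, j} : Finset (Fin d)).card := by rw [hLc]; exact even_two
      have hKL : K ∩ ({i, j} : Finset (Fin d)) = {i} := by
        ext x
        simp only [Finset.mem_inter, Finset.mem_insert, Finset.mem_singleton]
        constructor
        · rintro ⟨hx, rfl | rfl⟩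
          · rfl
          · exact absurd hx hj
        · rintro rfl
          exact ⟨hi, Or.inl rfl⟩
      have hcm := h.comm K {i, j} hK hLe
      rw [hKL, Finset.card_singleton, pow_one, neg_smul, one_smul] at hcm
      have hst := h.st_inv {i, j} hLe
      rw [h.st_M {i, j} hLe, hLc] at hst
      norm_num at hst
      have hLL : M {i, j} * M {i, j} = -1 := by
        rw [← hst, neg_neg]
      have e1 : M K = M {i, j} * M K * M {i, j} := by
        have : M {i, j} * M K = - (M K * M {i, j}) := by rw [hcm, neg_neg]
        rw [this, neg_mul, mul_assoc, hLL, mul_neg, mul_one, neg_neg]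
      have e2 : T (M K) = - T (M K) := by
        calc T (M K) = T (M {i, j} * M K * M {i, j}) := by rw [← e1]
          _ = T (M {i, j} * (M {i, j} * M K)) := hcyc _ _
          _ = T (- M K) := by rw [← mul_assoc, hLL, neg_mul, one_mul]
          _ = - T (M K) := map_neg _ _
      have e3 : T (M K) = 0 := by
        have : (2 : ℂ) * T (M K) = 0 := by linear_combination e2
        exact (mul_eq_zero.1 this).resolve_left two_ne_zero
      rw [LinearMap.smul_apply, e3, smul_zero]
  · intro x y
    rw [LinearMap.smul_apply, LinearMap.smul_apply, hcyc]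

end Pool.Agent.K1H59.SD
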