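import Pool.Agent.K1H14.SD.Stm

/-!
# Project SD: the span of the monomials of degree two among the Lie algebras of skew elements
-/

set_option autoImplicit false

namespace Pool.Agent.K1H59.SD

open Pool.Agent.K1H14.SD
open scoped symmDiff

universe u

theorem card_sd {d : ℕ} (K L : Finset (Fin d)) :
    (K ∆ L).card + 2 * (K ∩ L).card = K.card + L.card := by
  have h1 : (K ∆ L).card = (K \ L).card + (L \ K).card := by
    rw [symmDiff_def, Finset.sup_eq_union, Finset.card_union_of_disjoint]
    exact disjoint_sdiff_sdiff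
  have h2 := Finset.card_sdiff_add_card_inter K L
  have h3 := Finset.card_sdiff_add_card_inter L K
  rw [Finset.inter_comm L K] at h3
  omega

theorem t_LIE (h : S_SPAN.{u}) (h' : S_COMB) : S_LIE.{u} := by
  intro A _ _ d M st N hE h2 hbr hst hx0' x hx
  obtain ⟨x0, hx0, hx0d, hx0N⟩ := hx0'
  by_contra hnot
  have hne : ∀ K : Finset (Fin d), Even K.card → M K ≠ 0 := by
    intro K hK h0
    have := hE.st_inv K hK
    rw [h0, mul_zero] at this
    exact hE.ne this.symm
  have hP2 : ∀ K : Finset (Fin d), K.card = 2 → (Even K.card ∧ M K ∈ N) := fun K hK =>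
    ⟨by rw [hK]; exact even_two, h2 K hK⟩
  have hPmod : ∀ K : Finset (Fin d), (Even K.card ∧ M K ∈ N) → K.card % 4 = 2 := by
    rintro K ⟨hK, hKN⟩
    have h3 := hst _ hKN
    rw [hE.st_M K hK] at h3
    rcases Nat.even_or_odd (K.card / 2) with he | ho
    · exfalso
      rw [he.neg_one_pow, one_smul] at h3
      apply hne K hK
      have h4 : (2 : ℂ) • M K = 0 := by
        rw [two_smul]
        nth_rewrite 2 [h3]
        exact add_neg_cancel _
      exact (smul_eq_zero.1 h4).resolve_left two_ne_zero
    · obtain ⟨a, ha⟩ := hK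
      obtain ⟨b, hb⟩ := ho
      omega
  have hPs : ∀ K L : Finset (Fin d), (Even K.card ∧ M K ∈ N) → (Even L.card ∧ M L ∈ N) →
      Odd (K ∩ L).card → (Even (K ∆ L).card ∧ M (K ∆ L) ∈ N) := by
    rintro K L ⟨hK, hKN⟩ ⟨hL, hLN⟩ ho
    refine ⟨?_, ?_⟩
    · have h3 := card_sd K L
      obtain ⟨a, ha⟩ := hK
      obtain ⟨b, hb⟩ := hL
      rw [Nat.even_iff]
      omega
    · have h3 := hE.comm K L hK hL
      rw [ho.neg_one_pow, neg_smul, one_smul] at h3
      obtain ⟨ε, hε, hm⟩ := hE.mul K L hK hL
      have h4 := hbr _ hKN _ hLN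
      have h5 : M L * M K = - (M K * M L) := by rw [h3, neg_neg]
      rw [h5, sub_neg_eq_add, ← two_smul ℂ, hm, smul_smul] at h4
      have h6 : (2 : ℂ) * ε ≠ 0 := by
        rcases hε with rfl | rfl <;> norm_num
      exact (Submodule.smul_mem_iff N h6).1 h4
  have hex : ∃ K : Finset (Fin d), (Even K.card ∧ M K ∈ N) ∧ K.card ≠ 2 := by
    by_contra hcon
    push Not at hcon
    apply hnot
    have h3 := h M st N hE (fun K hK y hy => hbr _ (h2 K hK) _ hy) x hx
    refine Submodule.span_mono ?_ h3
    rintro _ ⟨K, hK, hKN, rfl⟩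
    exact ⟨K, hcon K ⟨hK, hKN⟩, rfl⟩
  have hall := h' d (fun K => Even K.card ∧ M K ∈ N) hE.odd hP2 hPs hPmod hex
  have hodd := hE.odd
  by_cases hd : d % 4 = 3
  · apply hx0N
    have h3 := hx0d hd
    refine (Submodule.span_le.2 ?_) h3
    rintro _ ⟨K, hK, rfl⟩
    exact (hall K (by omega) (fun _ => hK)).2
  · have key : ∀ y : A, y - st y ∈ N := by
      intro y
      have hy := hE.span y
      induction hy using Submodule.span_induction with
      | mem y hy =>
        obtain ⟨L, hL, rfl⟩ := hy
        rw [hE.st_M L hL]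
        rcases Nat.even_or_odd (L.card / 2) with he | ho
        · rw [he.neg_one_pow, one_smul, sub_self]
          exact N.zero_mem
        · rw [ho.neg_one_pow, neg_smul, one_smul, sub_neg_eq_add]
          have h4 : L.card % 4 = 2 := by
            obtain ⟨a, ha⟩ := hL
            obtain ⟨b, hb⟩ := ho
            omega
          have h5 := (hall L h4 (fun hd' => absurd hd' hd)).2
          exact N.add_mem h5 h5
      | zero => rw [map_zero, sub_zero]; exact N.zero_mem
      | add y z _ _ hy hz =>
        rw [map_add, add_sub_add_comm]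
        exact N.add_mem hy hz
      | smul c y _ hy =>
        rw [map_smul, ← smul_sub]
        exact N.smul_mem c hy
    apply hx0N
    have h3 := key x0
    rw [hx0, sub_neg_eq_add, ← two_smul ℂ] at h3
    exact (Submodule.smul_mem_iff N two_ne_zero).1 h3

end Pool.Agent.K1H59.SD
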